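import Pool.Agent.Helper15.EP.St

/-! # Project EP, module CSB -/

set_option autoImplicit false

namespace Pool.Agent.Helper54.EP

open Polynomial Pool.Agent.Helper15.FC Pool.Agent.Helper15.EP

private theorem isUnit_mk_rev {F : Type} [Field F] (f : F[X]) (hf : f.Monic) :
    IsUnit (AdjoinRoot.mk (X ^ (0 + 1) : F[X]) f.reverse) := by
  have h0 : f.reverse.coeff 0 = 1 := by
    rw [Polynomial.coeff_zero_reverse]
    exact hf
  have h1 : AdjoinRoot.mk (X ^ (0 + 1) : F[X]) 1 * AdjoinRoot.mk (X ^ (0 + 1) : F[X]) f.reverse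
      = 1 := by
    rw [← map_mul, ← map_one (AdjoinRoot.mk (X ^ (0 + 1) : F[X])), AdjoinRoot.mk_eq_mk]
    refine ⟨f.reverse.divX, ?_⟩
    have := Polynomial.divX_mul_X_add f.reverse
    rw [h0, map_one] at this
    linear_combination -this
  exact IsUnit.of_mul_eq_one_right _ h1

theorem hCSB (hLDB : StLDB) (hZS : StZS) (hCMH : StCMH) (hAVT : StAVT) : StCSB := by
  intro F _ _ δ hδ
  have _ := hCMH
  obtain ⟨C, hC1, hC⟩ := hLDB F δ hδ
  refine ⟨C, hC1, ?_⟩
  intro r χ i hr hχ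
  have hq : (0 : ℝ) < qr F := by
    have : 0 < Fintype.card F := Fintype.card_pos
    exact_mod_cast this
  have hs : 0 < Real.sqrt (qr F) := Real.sqrt_pos.2 hq
  have hqd : (0 : ℝ) < qr F ^ (δ * (r.natDegree : ℝ)) := Real.rpow_pos_of_pos hq _
  set Χ : F[X] → ℂ := Hk r 0 χ 1 with hΧ
  have hval : ∀ f ∈ Mn F i, χ (AdjoinRoot.mk r f) = Χ f := by
    intro f hf
    have hf1 := (mem_Mn.1 hf).1
    rw [hΧ]
    unfold Hk
    rw [MulChar.one_apply (isUnit_mk_rev f hf1), mul_one]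
  have hsum : ∑ f ∈ Mn F i, χ (AdjoinRoot.mk r f) = Asum Χ i := Finset.sum_congr rfl hval
  rw [hsum]
  by_cases hi : r.natDegree ≤ i
  · rw [hZS F r 0 χ 1 hr (Or.inr hχ) i (by omega), norm_zero]
    have hC0 : 0 ≤ C := by linarith
    positivity
  · push Not at hi
    set T := r.natDegree with hT
    obtain ⟨z, hz, hG⟩ := hAVT T ((Real.sqrt (qr F))⁻¹) (by omega) (inv_pos.2 hs)
    have hdeg : (Lp Χ T).natDegree < T := by
      have h1 : (Lp Χ T).natDegree ≤ T - 1 := by
        unfold Lp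
        apply Polynomial.natDegree_sum_le_of_forall_le
        intro d hd
        rw [Finset.mem_range] at hd
        exact (Polynomial.natDegree_C_mul_X_pow_le _ _).trans (by omega)
      omega
    have hco : (Lp Χ T).coeff i = Asum Χ i := by
      unfold Lp
      rw [Polynomial.finsetSum_coeff, Finset.sum_eq_single i]
      · rw [Polynomial.coeff_C_mul_X_pow, if_pos rfl]
      · intro b _ hb
        rw [Polynomial.coeff_C_mul_X_pow, if_neg (Ne.symm hb)]
      · intro h
        exact absurd (Finset.mem_range.2 hi) h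
    have h1 := hG _ hdeg i
    rw [hco] at h1
    have hev : ∀ j, ‖(Lp Χ T).eval (z j)‖ ^ 2 ≤ (C * qr F ^ (δ * (T : ℝ))) ^ 2 := by
      intro j
      have hu : qr F * ‖z j‖ ^ 2 = 1 := by
        rw [hz j, inv_pow, Real.sq_sqrt hq.le]
        exact mul_inv_cancel₀ hq.ne'
      exact pow_le_pow_left₀ (norm_nonneg _) (hC r χ (z j) hr hχ hu) 2
    have h2 : (1 / (T : ℝ)) * ∑ j ∈ Finset.range T, ‖(Lp Χ T).eval (z j)‖ ^ 2 ≤
        (C * qr F ^ (δ * (T : ℝ))) ^ 2 := by
      have h3 : ∑ j ∈ Finset.range T, ‖(Lp Χ T).eval (z j)‖ ^ 2 ≤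
          (T : ℝ) * (C * qr F ^ (δ * (T : ℝ))) ^ 2 := by
        calc _ ≤ ∑ _j ∈ Finset.range T, (C * qr F ^ (δ * (T : ℝ))) ^ 2 :=
              Finset.sum_le_sum fun j _ => hev j
          _ = _ := by rw [Finset.sum_const, Finset.card_range, nsmul_eq_mul]
      have hT0 : (0 : ℝ) < (T : ℝ) := by
        have : 0 < T := by omega
        exact_mod_cast this
      calc _ ≤ (1 / (T : ℝ)) * ((T : ℝ) * (C * qr F ^ (δ * (T : ℝ))) ^ 2) :=
            mul_le_mul_of_nonneg_left h3 (by positivity)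
        _ = _ := by field_simp
    have h4 : ‖Asum Χ i‖ ^ 2 * ((Real.sqrt (qr F))⁻¹ ^ i) ^ 2 ≤
        (C * qr F ^ (δ * (T : ℝ))) ^ 2 := by
      rw [← pow_mul, mul_comm i 2]
      exact h1.trans h2
    rw [← mul_pow] at h4
    have hC0 : 0 ≤ C := by linarith
    have h5 := (sq_le_sq₀ (by positivity) (by positivity)).1 h4
    rw [inv_pow, ← div_eq_mul_inv, div_le_iff₀ (by positivity)] at h5
    refine h5.trans (le_of_eq ?_)
    ring

end Pool.Agent.Helper54.EP
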